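import Pool.Agent.Helper20.RG.St3

/-!
# Project RG (MP_cb927e_an), module CAP: the condition `(G_s)` gives the distribution of the slopes
-/

set_option autoImplicit false

open MeasureTheory Set Filter Topology
open scoped ENNReal RealInnerProductSpace

namespace Pool.Agent.Helper93.RG

open Pool.Agent.Helper20.RG
open Pool.Agent.Helper68.LM (Pl BB Bd Av HL ft fm DQ)
open Pool.Agent.Helper61.Lacunary (ConditionG LpBounded linePlus capPlus capLength capIntegral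
  arclength Admissible)

private theorem tau_mono {φ τ : ℝ → ℝ} (h : Graph φ τ) {t t' : ℝ} (ht : t ≤ t') : τ t ≤ τ t' := by
  rcases eq_or_lt_of_le ht with e | e
  · rw [e]
  · have h1 := h.2 t t' ht
    have h2 : τ t * (t' - t) ≤ τ t' * (t' - t) := h1.1.trans h1.2
    exact le_of_mul_le_mul_right h2 (by linarith)

/-- the increment of `φ` against the supporting line at `t₀` -/
private theorem inc_CAP {φ τ : ℝ → ℝ} (h : Graph φ τ) (t₀ t : ℝ) :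
    0 ≤ φ t - φ t₀ - τ t₀ * (t - t₀) ∧
      φ t - φ t₀ - τ t₀ * (t - t₀) ≤ |τ t - τ t₀| * |t - t₀| := by
  have hmul : |τ t - τ t₀| * |t - t₀| = |(τ t - τ t₀) * (t - t₀)| := (abs_mul _ _).symm
  rcases le_total t₀ t with e | e
  · have h1 := h.2 t₀ t e
    constructor
    · linarith [h1.1]
    · rw [hmul]
      refine le_trans ?_ (le_abs_self _)
      nlinarith [h1.2]
  · have h1 := h.2 t t₀ e
    constructor
    · nlinarith [h1.2]
    · rw [hmul]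
      refine le_trans ?_ (le_abs_self _)
      nlinarith [h1.1]

section

variable {Ω : Set Pl} {P u v : Pl} {ℓ : ℝ} {φ τ : ℝ → ℝ}

private noncomputable def yy (P u v : Pl) (φ : ℝ → ℝ) (t : ℝ) : Pl := P + t • u + φ t • v

private theorem yy_inner_u (hp : Piece Ω P u v ℓ φ τ) (t : ℝ) :
    ⟪yy P u v φ t - P, u⟫ = t := by
  have h1 : yy P u v φ t - P = t • u + φ t • v := by
    unfold yy; abel
  have huu : ⟪u, u⟫ = (1 : ℝ) := by
    rw [real_inner_self_eq_norm_sq, hp.nu]; norm_num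
  have hvu : ⟪v, u⟫ = (0 : ℝ) := by rw [real_inner_comm]; exact hp.uv
  rw [h1, inner_add_left, inner_smul_left, inner_smul_left, huu, hvu]
  simp

private theorem yy_inner_n (hp : Piece Ω P u v ℓ φ τ) (t₀ t : ℝ) :
    ⟪yy P u v φ t - yy P u v φ t₀, v - τ t₀ • u⟫ = φ t - φ t₀ - τ t₀ * (t - t₀) := by
  have h1 : yy P u v φ t - yy P u v φ t₀ = (t - t₀) • u + (φ t - φ t₀) • v := by
    unfold yy
    rw [sub_smul, sub_smul]
    abel
  have huu : ⟪u, u⟫ = (1 : ℝ) := by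
    rw [real_inner_self_eq_norm_sq, hp.nu]; norm_num
  have hvv : ⟪v, v⟫ = (1 : ℝ) := by
    rw [real_inner_self_eq_norm_sq, hp.nv]; norm_num
  have hvu : ⟪v, u⟫ = (0 : ℝ) := by rw [real_inner_comm]; exact hp.uv
  rw [h1, inner_sub_right, inner_add_left, inner_add_left, inner_smul_right, inner_smul_right,
    inner_smul_left, inner_smul_left, inner_smul_left, inner_smul_left, huu, hvv, hvu, hp.uv]
  simp

private theorem n_norm (hp : Piece Ω P u v ℓ φ τ) (t₀ : ℝ) : 1 ≤ ‖v - τ t₀ • u‖ := by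
  have huu : ⟪u, u⟫ = (1 : ℝ) := by
    rw [real_inner_self_eq_norm_sq, hp.nu]; norm_num
  have hvv : ⟪v, v⟫ = (1 : ℝ) := by
    rw [real_inner_self_eq_norm_sq, hp.nv]; norm_num
  have hvu : ⟪v, u⟫ = (0 : ℝ) := by rw [real_inner_comm]; exact hp.uv
  have h1 : ‖v - τ t₀ • u‖ ^ 2 = 1 + τ t₀ ^ 2 := by
    rw [← real_inner_self_eq_norm_sq, inner_sub_left, inner_sub_right, inner_sub_right,
      inner_smul_right, inner_smul_right, inner_smul_left, inner_smul_left, huu, hvv, hvu, hp.uv]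
    simp
    ring
  have h2 := norm_nonneg (v - τ t₀ • u)
  nlinarith [sq_nonneg (τ t₀)]

/-- the caps contain the arcs with slopes near `τ t₀` -/
private theorem cap_CAP (hp : Piece Ω P u v ℓ φ τ) (hne : Ω.Nonempty) (t₀ : ℝ) (ht₀ : t₀ ∈ Ioo 0 ℓ)
    (S : Set ℝ) (hS : S ⊆ Ioo 0 ℓ) (κ : ℝ) (hκ : ∀ t ∈ S, |τ t - τ t₀| ≤ κ) (δ : ℝ)
    (hδ : κ * ℓ ≤ δ) :
    ∃ θ₀ : Pl, ‖θ₀‖ = 1 ∧ θ₀ = -(‖v - τ t₀ • u‖⁻¹ • (v - τ t₀ • u)) ∧
      volume S ≤ capLength Ω θ₀ δ := by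
  set n₀ := v - τ t₀ • u with hn₀
  have hn1 : 1 ≤ ‖n₀‖ := n_norm hp t₀
  have hnpos : 0 < ‖n₀‖ := by linarith
  set θ₀ : Pl := -(‖n₀‖⁻¹ • n₀) with hθ₀
  have hθn : ‖θ₀‖ = 1 := by
    rw [hθ₀, norm_neg, norm_smul, norm_inv, norm_norm]
    field_simp
  have hin : ∀ z : Pl, ⟪z, θ₀⟫ = -(‖n₀‖⁻¹ * ⟪z, n₀⟫) := by
    intro z
    rw [hθ₀, inner_neg_right, inner_smul_right]
  refine ⟨θ₀, hθn, rfl, ?_⟩
  set y₀ := yy P u v φ t₀ with hy₀
  have hy₀fr : y₀ ∈ frontier Ω := hp.fr t₀ ht₀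
  have hy₀cl : y₀ ∈ closure Ω := frontier_subset_closure hy₀fr
  have hsup : sSup ((fun y => ⟪y, θ₀⟫) '' Ω) = ⟪y₀, θ₀⟫ := by
    refine csSup_eq_of_forall_le_of_forall_lt_exists_gt (hne.image _) ?_ ?_
    · rintro _ ⟨z, hz, rfl⟩
      have h1 := hp.sup t₀ ht₀ z hz
      have h2 : 0 ≤ ⟪z - y₀, n₀⟫ := h1
      rw [inner_sub_left] at h2
      show ⟪z, θ₀⟫ ≤ ⟪y₀, θ₀⟫
      rw [hin, hin]
      have h3 : ‖n₀‖⁻¹ * ⟪y₀, n₀⟫ ≤ ‖n₀‖⁻¹ * ⟪z, n₀⟫ :=
        mul_le_mul_of_nonneg_left (by linarith) (by positivity)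
      linarith
    · intro w hw
      have hopen : IsOpen {z : Pl | w < ⟪z, θ₀⟫} :=
        isOpen_lt continuous_const (by fun_prop)
      obtain ⟨z, hz1, hz2⟩ := mem_closure_iff.1 hy₀cl _ hopen hw
      exact ⟨⟪z, θ₀⟫, ⟨z, hz2, rfl⟩, hz1⟩
  have hsub : (yy P u v φ) '' S ⊆ capPlus Ω θ₀ δ := by
    rintro _ ⟨t, ht, rfl⟩
    refine ⟨hp.fr t (hS ht), ?_⟩
    set y := yy P u v φ t with hy
    have hmem : y + (⟪y₀, θ₀⟫ - ⟪y, θ₀⟫) • θ₀ ∈ linePlus Ω θ₀ := by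
      show ⟪y + (⟪y₀, θ₀⟫ - ⟪y, θ₀⟫) • θ₀, θ₀⟫ = _
      rw [hsup, inner_add_left, inner_smul_left, real_inner_self_eq_norm_sq, hθn]
      simp
    refine (Metric.infDist_le_dist_of_mem hmem).trans ?_
    have h1 : dist y (y + (⟪y₀, θ₀⟫ - ⟪y, θ₀⟫) • θ₀) = |⟪y₀, θ₀⟫ - ⟪y, θ₀⟫| := by
      rw [dist_eq_norm]
      have : y - (y + (⟪y₀, θ₀⟫ - ⟪y, θ₀⟫) • θ₀) = -((⟪y₀, θ₀⟫ - ⟪y, θ₀⟫) • θ₀) := by abel
      rw [this, norm_neg, norm_smul, hθn, mul_one, Real.norm_eq_abs]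
    rw [h1, hin, hin]
    have h2 : -(‖n₀‖⁻¹ * ⟪y₀, n₀⟫) - -(‖n₀‖⁻¹ * ⟪y, n₀⟫) = ‖n₀‖⁻¹ * ⟪y - y₀, n₀⟫ := by
      rw [inner_sub_left]; ring
    have h3 : ⟪y - y₀, n₀⟫ = φ t - φ t₀ - τ t₀ * (t - t₀) := yy_inner_n hp t₀ t
    obtain ⟨i1, i2⟩ := inc_CAP hp.graph t₀ t
    rw [h2, h3, abs_mul, abs_of_nonneg i1, abs_of_pos (by positivity : 0 < ‖n₀‖⁻¹)]
    have h4 : ‖n₀‖⁻¹ ≤ 1 := inv_le_one_of_one_le₀ hn1
    have h5 : |t - t₀| ≤ ℓ := by
      have a1 := hS ht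
      rw [abs_le]
      constructor
      · linarith [a1.1, ht₀.2]
      · linarith [a1.2, ht₀.1]
    have h6 : |τ t - τ t₀| * |t - t₀| ≤ κ * ℓ := by
      have := hκ t ht
      exact mul_le_mul this h5 (abs_nonneg _) ((abs_nonneg _).trans this)
    calc ‖n₀‖⁻¹ * (φ t - φ t₀ - τ t₀ * (t - t₀)) ≤ 1 * (φ t - φ t₀ - τ t₀ * (t - t₀)) :=
          mul_le_mul_of_nonneg_right h4 i1
      _ ≤ κ * ℓ := by linarith
      _ ≤ δ := hδ
  have hfr : (yy P u v φ) '' S ⊆ frontier Ω := hsub.trans (fun z hz => hz.1)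
  have hlip : LipschitzWith 1 (fun z : Pl => (⟪z - P, u⟫ : ℝ)) := by
    refine LipschitzWith.of_dist_le_mul (fun z z' => ?_)
    rw [Real.dist_eq, ← inner_sub_left, dist_eq_norm]
    have : z - P - (z' - P) = z - z' := by abel
    rw [this, NNReal.coe_one, one_mul]
    refine (abs_real_inner_le_norm _ _).trans ?_
    rw [hp.nu, mul_one]
  have himg : (fun z : Pl => (⟪z - P, u⟫ : ℝ)) '' ((yy P u v φ) '' S) = S := by
    rw [image_image]
    have : (fun t => (⟪yy P u v φ t - P, u⟫ : ℝ)) = id := by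
      funext t
      exact yy_inner_u hp t
    rw [this, image_id]
  have h1 := hlip.hausdorffMeasure_image_le (d := 1) zero_le_one ((yy P u v φ) '' S)
  rw [himg, hausdorffMeasure_real] at h1
  simp only [ENNReal.coe_one, ENNReal.one_rpow, one_mul] at h1
  refine h1.trans ?_
  have h2 : (μH[1] : Measure Pl) ((yy P u v φ) '' S) = arclength Ω ((yy P u v φ) '' S) :=
    (Measure.restrict_eq_self _ hfr).symm
  rw [h2]
  exact (measure_mono hsub).trans (le_max_left _ _)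

/-- the integral over the widths -/
private theorem int_CAP (hp : Piece Ω P u v ℓ φ τ) (hne : Ω.Nonempty) (t₀ : ℝ) (ht₀ : t₀ ∈ Ioo 0 ℓ)
    (S : Set ℝ) (hS : S ⊆ Ioo 0 ℓ) (κ : ℝ) (hκ0 : 0 < κ) (hκ : ∀ t ∈ S, |τ t - τ t₀| ≤ κ)
    (σ δ₀ A : ℝ) (hσ : 0 < σ) (hκδ : κ * ℓ < δ₀)
    (hA : ∀ θ : Pl, ‖θ‖ = 1 → capIntegral Ω σ δ₀ θ ≤ ENNReal.ofReal A) :
    volume S ^ σ * ENNReal.ofReal (Real.log (δ₀ / (κ * ℓ))) ≤ ENNReal.ofReal A := by
  have ha : 0 < κ * ℓ := mul_pos hκ0 hp.pos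
  obtain ⟨θ₀, hθ1, hθe, -⟩ := cap_CAP hp hne t₀ ht₀ S hS κ hκ (κ * ℓ) le_rfl
  refine le_trans ?_ (hA θ₀ hθ1)
  unfold capIntegral
  have h1 : ∫⁻ δ in Ioc (κ * ℓ) δ₀, volume S ^ σ * ENNReal.ofReal δ⁻¹ =
      volume S ^ σ * ENNReal.ofReal (Real.log (δ₀ / (κ * ℓ))) := by
    rw [lintegral_const_mul _ (by fun_prop)]
    congr 1
    rw [← integral_inv_of_pos ha (ha.trans hκδ), intervalIntegral.integral_of_le hκδ.le,
      ofReal_integral_eq_lintegral_ofReal]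
    · have h2 : IntervalIntegrable (fun x : ℝ => x⁻¹) volume (κ * ℓ) δ₀ := by
        apply intervalIntegral.intervalIntegrable_inv
        · intro x hx
          rw [uIcc_of_le hκδ.le] at hx
          exact (ha.trans_le hx.1).ne'
        · exact continuousOn_id
      exact (intervalIntegrable_iff_integrableOn_Ioc_of_le hκδ.le).1 h2
    · refine (ae_restrict_mem measurableSet_Ioc).mono (fun x hx => ?_)
      show (0 : ℝ) ≤ x⁻¹
      exact inv_nonneg.2 (ha.trans hx.1).le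
  rw [← h1, restrict_Ioo_eq_restrict_Ioc]
  refine (lintegral_mono_ae ?_).trans
    (lintegral_mono_set (Ioc_subset_Ioc_left ha.le))
  refine (ae_restrict_mem measurableSet_Ioc).mono (fun δ hδ => ?_)
  obtain ⟨θ₁, -, hθe1, h3⟩ := cap_CAP hp hne t₀ ht₀ S hS κ hκ δ hδ.1.le
  have : θ₁ = θ₀ := by rw [hθe1, hθe]
  rw [this] at h3
  show volume S ^ σ * ENNReal.ofReal δ⁻¹ ≤ capLength Ω θ₀ δ ^ σ * ENNReal.ofReal δ⁻¹
  gcongr

end

/-- the bound in real numbers -/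
private theorem real_CAP (V : ℝ≥0∞) (ℓ σ A L : ℝ) (i : ℕ) (hℓ : 0 < ℓ) (hV : V ≤ ENNReal.ofReal ℓ)
    (hσ : 0 < σ) (hA : 0 ≤ A) (hi : 1 ≤ i) (hL : i * (Real.log 2 / 2) ≤ L)
    (h : V ^ σ * ENNReal.ofReal L ≤ ENNReal.ofReal A) :
    V ≤ ENNReal.ofReal ((2 * A / Real.log 2) ^ (1 / σ) * (i : ℝ) ^ (-(1 / σ))) := by
  have hVtop : V ≠ ∞ := (hV.trans_lt ENNReal.ofReal_lt_top).ne
  obtain ⟨r, hr0, rfl⟩ : ∃ r : ℝ, 0 ≤ r ∧ V = ENNReal.ofReal r :=
    ⟨V.toReal, ENNReal.toReal_nonneg, (ENNReal.ofReal_toReal hVtop).symm⟩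
  have hi0 : (0 : ℝ) < i := by exact_mod_cast hi
  have hlog : 0 < Real.log 2 := Real.log_pos (by norm_num)
  have hL0 : 0 < L := lt_of_lt_of_le (by positivity) hL
  rw [ENNReal.ofReal_rpow_of_nonneg hr0 hσ.le, ← ENNReal.ofReal_mul (by positivity),
    ENNReal.ofReal_le_ofReal_iff hA] at h
  apply ENNReal.ofReal_le_ofReal
  have h1 : r ^ σ ≤ (2 * A / Real.log 2) * (i : ℝ)⁻¹ := by
    have h2 : r ^ σ * (i * (Real.log 2 / 2)) ≤ A :=
      (mul_le_mul_of_nonneg_left hL (by positivity)).trans h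
    rw [show (2 * A / Real.log 2) * (i : ℝ)⁻¹ = A / (i * (Real.log 2 / 2)) by field_simp]
    rw [le_div_iff₀ (by positivity)]
    exact h2
  have h3 : r = (r ^ σ) ^ (1 / σ) := by
    rw [← Real.rpow_mul hr0, mul_one_div_cancel hσ.ne', Real.rpow_one]
  rw [h3]
  refine (Real.rpow_le_rpow (by positivity) h1 (by positivity)).trans (le_of_eq ?_)
  rw [Real.mul_rpow (by positivity) (by positivity), Real.inv_rpow hi0.le, Real.rpow_neg hi0.le]

theorem hCAP : StCAP := by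
  intro Ω σ _hO _hC _hB hne hσ hG P u v ℓ φ τ hp
  obtain ⟨⟨δ₀, hadm⟩, hall⟩ := hG
  obtain ⟨A₁, hA₁⟩ := hall δ₀ hadm
  have hδ₀ : 0 < δ₀ := hadm.1
  have hℓ := hp.pos
  set A' := max A₁ 0 with hA'
  have hA'0 : 0 ≤ A' := le_max_right _ _
  have hA2 : ∀ θ : Pl, ‖θ‖ = 1 → capIntegral Ω σ δ₀ θ ≤ ENNReal.ofReal A' := fun θ hθ =>
    (hA₁ θ hθ).trans (ENNReal.ofReal_le_ofReal (le_max_left _ _))
  have hlog : 0 < Real.log 2 := Real.log_pos (by norm_num)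
  set β := Real.log (δ₀ / (2 * ℓ)) with hβ
  set i₀ : ℕ := ⌈|β| * (2 / Real.log 2)⌉₊ + 1 with hi₀
  have hi₀1 : 1 ≤ i₀ := by omega
  have hi₀pos : (0 : ℝ) < i₀ := by exact_mod_cast hi₀1
  set B := (2 * A' / Real.log 2) ^ (1 / σ) + ℓ * (i₀ : ℝ) ^ (1 / σ) with hB
  have hB1 : 0 ≤ (2 * A' / Real.log 2) ^ (1 / σ) := by positivity
  have hB2 : 0 < ℓ * (i₀ : ℝ) ^ (1 / σ) := by positivity
  refine ⟨B / ℓ, by positivity, ?_⟩
  intro θ i hi
  have hipos : (0 : ℝ) < i := by exact_mod_cast hi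
  set S : Set ℝ := {t | t ∈ Ioo 0 ℓ ∧ |τ t - θ| ≤ (2 : ℝ) ^ (-(i : ℤ))} with hS
  have hSsub : S ⊆ Ioo 0 ℓ := fun t ht => ht.1
  have hVℓ : volume S ≤ ENNReal.ofReal ℓ := by
    refine (measure_mono hSsub).trans ?_
    rw [Real.volume_Ioo, sub_zero]
  -- the main bound
  have hmain : volume S ≤ ENNReal.ofReal (B * (i : ℝ) ^ (-(1 / σ))) := by
    rcases lt_or_ge i i₀ with hlt | hge
    · refine hVℓ.trans (ENNReal.ofReal_le_ofReal ?_)
      have h1 : 1 ≤ (i₀ : ℝ) ^ (1 / σ) * (i : ℝ) ^ (-(1 / σ)) := by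
        rw [Real.rpow_neg hipos.le, ← div_eq_mul_inv, le_div_iff₀ (by positivity), one_mul]
        apply Real.rpow_le_rpow hipos.le _ (by positivity)
        exact_mod_cast hlt.le
      have h2 : 0 ≤ (2 * A' / Real.log 2) ^ (1 / σ) * (i : ℝ) ^ (-(1 / σ)) := by positivity
      rw [hB, add_mul]
      nlinarith [h1, h2, hℓ]
    · by_cases hemp : S.Nonempty
      · obtain ⟨t₀, ht₀⟩ := hemp
        have hκ0 : (0 : ℝ) < 2 * (2 : ℝ) ^ (-(i : ℤ)) := by positivity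
        have hκ : ∀ t ∈ S, |τ t - τ t₀| ≤ 2 * (2 : ℝ) ^ (-(i : ℤ)) := by
          intro t ht
          have h1 : τ t - τ t₀ = (τ t - θ) - (τ t₀ - θ) := by ring
          rw [h1]
          have := abs_sub (τ t - θ) (τ t₀ - θ)
          linarith [ht.2, ht₀.2]
        -- the logarithm
        have hLe : Real.log (δ₀ / (2 * (2 : ℝ) ^ (-(i : ℤ)) * ℓ)) = β + i * Real.log 2 := by
          have h1 : δ₀ / (2 * (2 : ℝ) ^ (-(i : ℤ)) * ℓ) = δ₀ / (2 * ℓ) * (2 : ℝ) ^ i := by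
            rw [zpow_neg, zpow_natCast]
            field_simp
          rw [h1, Real.log_mul (by positivity) (by positivity), Real.log_pow]
        have hge' : (i₀ : ℝ) ≤ i := by exact_mod_cast hge
        have h2 : |β| ≤ i * (Real.log 2 / 2) := by
          have h3 : |β| * (2 / Real.log 2) ≤ i := by
            refine (Nat.le_ceil _).trans (le_trans ?_ hge')
            rw [hi₀]; push_cast; linarith
          have h4 := mul_le_mul_of_nonneg_right h3 (by positivity : 0 ≤ Real.log 2 / 2)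
          have h5 : |β| * (2 / Real.log 2) * (Real.log 2 / 2) = |β| := by field_simp
          linarith
        have h6 : i * (Real.log 2 / 2) ≤ Real.log (δ₀ / (2 * (2 : ℝ) ^ (-(i : ℤ)) * ℓ)) := by
          rw [hLe]
          have := neg_abs_le β
          linarith
        have h7 : 2 * (2 : ℝ) ^ (-(i : ℤ)) * ℓ < δ₀ := by
          have h8 : 0 < Real.log (δ₀ / (2 * (2 : ℝ) ^ (-(i : ℤ)) * ℓ)) :=
            lt_of_lt_of_le (by positivity) h6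
          have h9 := (Real.log_pos_iff (by positivity)).1 h8
          rwa [one_lt_div (by positivity)] at h9
        have h10 := int_CAP hp hne t₀ ht₀.1 S hSsub _ hκ0 hκ σ δ₀ A' hσ h7 hA2
        refine (real_CAP _ ℓ σ A' _ i hℓ hVℓ hσ hA'0 hi h6 h10).trans
          (ENNReal.ofReal_le_ofReal ?_)
        rw [hB, add_mul]
        have : 0 ≤ ℓ * (i₀ : ℝ) ^ (1 / σ) * (i : ℝ) ^ (-(1 / σ)) := by positivity
        linarith
      · rw [Set.not_nonempty_iff_eq_empty.1 hemp]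
        simp
  -- scaling
  have hsub : {t : ℝ | t ∈ Icc (0 : ℝ) 1 ∧ |τ (ℓ * t) - θ| ≤ (2 : ℝ) ^ (-(i : ℤ))} ⊆
      (fun x => ℓ * x) ⁻¹' (S ∪ {0, ℓ}) := by
    rintro t ⟨ht, h⟩
    show ℓ * t ∈ S ∪ {0, ℓ}
    rcases eq_or_lt_of_le ht.1 with e | e
    · right; left; rw [← e, mul_zero]
    · rcases eq_or_lt_of_le ht.2 with e' | e'
      · right; right; rw [e', mul_one]; rfl
      · left
        exact ⟨⟨by positivity, by nlinarith⟩, h⟩
  show volume {t : ℝ | t ∈ Icc (0 : ℝ) 1 ∧ |τ (ℓ * t) - θ| ≤ (2 : ℝ) ^ (-(i : ℤ))} ≤ _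
  refine (measure_mono hsub).trans ?_
  rw [Real.volume_preimage_mul_left hℓ.ne', abs_of_pos (by positivity)]
  have h1 : volume (S ∪ {0, ℓ}) ≤ volume S := by
    refine (measure_union_le _ _).trans ?_
    have : volume ({0, ℓ} : Set ℝ) = 0 := (Set.toFinite _).measure_zero _
    rw [this, add_zero]
  calc ENNReal.ofReal ℓ⁻¹ * volume (S ∪ {0, ℓ})
      ≤ ENNReal.ofReal ℓ⁻¹ * ENNReal.ofReal (B * (i : ℝ) ^ (-(1 / σ))) := by
        gcongr
        exact h1.trans hmain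
    _ = ENNReal.ofReal (B / ℓ * (i : ℝ) ^ (-(1 / σ))) := by
        rw [← ENNReal.ofReal_mul (by positivity)]
        congr 1
        ring

end Pool.Agent.Helper93.RG
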